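import Mathlib

/-! MP_49c203: the bounded tail map. -/

namespace MP49c203

set_option linter.unusedSectionVars false
set_option linter.unusedSimpArgs false

open Filter Topology Finset

open scoped InnerProductSpace

variable {H : Type*} [NormedAddCommGroup H] [InnerProductSpace ℝ H] [CompleteSpace H]

/-- A sequence with a Cauchy estimate has a limit with the estimate. -/
theorem exists_lim {E : Type*} [NormedAddCommGroup E] [CompleteSpace E] (f : ℕ → E) (u : ℕ → ℝ)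
    (hu : Tendsto u atTop (𝓝 0)) (h : ∀ n m, n ≤ m → ‖f m - f n‖ ≤ u n) :
    ∃ L, Tendsto f atTop (𝓝 L) ∧ ∀ n, ‖L - f n‖ ≤ u n := by
  have hc : CauchySeq f := by
    refine Metric.cauchySeq_iff'.2 fun ε hε => ?_
    obtain ⟨N, hN⟩ := (hu.eventually (gt_mem_nhds hε)).exists
    exact ⟨N, fun n hn => by rw [dist_eq_norm]; exact (h N n hn).trans_lt hN⟩
  obtain ⟨L, hL⟩ := cauchySeq_tendsto_of_complete hc
  refine ⟨L, hL, fun n => ?_⟩
  refine le_of_tendsto ((hL.sub_const (f n)).norm) ?_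
  filter_upwards [eventually_ge_atTop n] with m hm using h n m hm

/-- projection to the first `n` coordinates -/
noncomputable def cP (b : HilbertBasis ℕ ℝ H) (n : ℕ) : H →L[ℝ] H :=
  ∑ i ∈ range n, (innerSL ℝ (b i)).smulRight (b i)

noncomputable def cT (b : HilbertBasis ℕ ℝ H) (n : ℕ) : H →L[ℝ] H :=
  ContinuousLinearMap.id ℝ H - cP b n

noncomputable def uu (b : HilbertBasis ℕ ℝ H) (n : ℕ) (x : H) : ℝ :=
  ‖x‖ ^ 2 - ∑ i ∈ range n, ⟪b i, x⟫_ℝ ^ 2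

theorem cP_apply (b : HilbertBasis ℕ ℝ H) (n : ℕ) (x : H) :
    cP b n x = ∑ i ∈ range n, ⟪b i, x⟫_ℝ • b i := by
  simp [cP]

theorem cT_apply (b : HilbertBasis ℕ ℝ H) (n : ℕ) (x : H) : cT b n x = x - cP b n x := rfl

theorem norm_sum_sq (b : HilbertBasis ℕ ℝ H) (s : Finset ℕ) (c : ℕ → ℝ) :
    ‖∑ i ∈ s, c i • b i‖ ^ 2 = ∑ i ∈ s, c i ^ 2 := by
  rw [← real_inner_self_eq_norm_sq, b.orthonormal.inner_sum]
  exact Finset.sum_congr rfl fun i _ => by simp [sq]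

theorem inner_b_sum (b : HilbertBasis ℕ ℝ H) (s : Finset ℕ) (c : ℕ → ℝ) (j : ℕ) :
    ⟪b j, ∑ i ∈ s, c i • b i⟫_ℝ = if j ∈ s then c j else 0 := by
  rw [inner_sum]
  simp_rw [inner_smul_right, orthonormal_iff_ite.1 b.orthonormal]
  simp

theorem inner_cP (b : HilbertBasis ℕ ℝ H) (n : ℕ) (x y : H) :
    ⟪cP b n x, y⟫_ℝ = ∑ i ∈ range n, ⟪b i, x⟫_ℝ * ⟪b i, y⟫_ℝ := by
  rw [cP_apply, sum_inner]
  exact Finset.sum_congr rfl fun i _ => by rw [real_inner_smul_left]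

theorem uu_eq (b : HilbertBasis ℕ ℝ H) (n : ℕ) (x : H) : uu b n x = ‖cT b n x‖ ^ 2 := by
  have h1 : ‖cP b n x‖ ^ 2 = ∑ i ∈ range n, ⟪b i, x⟫_ℝ ^ 2 := by
    rw [cP_apply, norm_sum_sq]
  have h2 : ⟪x, cP b n x⟫_ℝ = ∑ i ∈ range n, ⟪b i, x⟫_ℝ ^ 2 := by
    rw [real_inner_comm, inner_cP]
    exact Finset.sum_congr rfl fun i _ => by rw [sq]
  rw [cT_apply, norm_sub_sq_real, h1, h2, uu]
  ring

theorem uu_nonneg (b : HilbertBasis ℕ ℝ H) (n : ℕ) (x : H) : 0 ≤ uu b n x := by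
  rw [uu_eq]; positivity

theorem uu_zero (b : HilbertBasis ℕ ℝ H) (x : H) : uu b 0 x = ‖x‖ ^ 2 := by simp [uu]

theorem uu_succ (b : HilbertBasis ℕ ℝ H) (n : ℕ) (x : H) :
    uu b (n + 1) x = uu b n x - ⟪b n, x⟫_ℝ ^ 2 := by
  simp only [uu, sum_range_succ]; ring

theorem uu_antitone (b : HilbertBasis ℕ ℝ H) (x : H) : Antitone fun n => uu b n x := by
  refine antitone_nat_of_succ_le fun n => ?_
  rw [uu_succ]
  have := sq_nonneg ⟪b n, x⟫_ℝ
  linarith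

theorem sum_sq_Ico (b : HilbertBasis ℕ ℝ H) (x : H) {n m : ℕ} (h : n ≤ m) :
    ∑ i ∈ Ico n m, ⟪b i, x⟫_ℝ ^ 2 ≤ uu b n x := by
  have h1 : ∑ i ∈ Ico n m, ⟪b i, x⟫_ℝ ^ 2 = uu b n x - uu b m x := by
    simp only [uu]
    rw [Finset.sum_Ico_eq_sub _ h]; ring
  have := uu_nonneg b m x
  linarith

theorem uu_tendsto (b : HilbertBasis ℕ ℝ H) (x : H) :
    Tendsto (fun n => uu b n x) atTop (𝓝 0) := by
  have h1 : HasSum (fun i => ⟪b i, x⟫_ℝ ^ 2) (‖x‖ ^ 2) := by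
    have h0 := b.hasSum_inner_mul_inner x x
    rw [real_inner_self_eq_norm_sq] at h0
    have h00 : (fun i => ⟪x, b i⟫_ℝ * ⟪b i, x⟫_ℝ) = fun i => ⟪b i, x⟫_ℝ ^ 2 := by
      funext i
      rw [real_inner_comm (b i) x, sq]
    rwa [h00] at h0
  have h2 := h1.tendsto_sum_nat
  have h3 : Tendsto (fun n => ‖x‖ ^ 2 - ∑ i ∈ range n, ⟪b i, x⟫_ℝ ^ 2) atTop
      (𝓝 (‖x‖ ^ 2 - ‖x‖ ^ 2)) := tendsto_const_nhds.sub h2
  simpa [uu] using h3

theorem uu_continuous (b : HilbertBasis ℕ ℝ H) (n : ℕ) : Continuous (uu b n) := by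
  unfold uu
  fun_prop

theorem uu_small (b : HilbertBasis ℕ ℝ H) (x : H) {ε : ℝ} (hε : 0 < ε) :
    ∀ᶠ q : ℕ × H in atTop ×ˢ 𝓝 x, uu b q.1 q.2 < ε := by
  obtain ⟨N, hN⟩ := ((uu_tendsto b x).eventually (gt_mem_nhds hε)).exists
  have h2 : ∀ᶠ y in 𝓝 x, uu b N y < ε :=
    (uu_continuous b N).continuousAt.eventually (gt_mem_nhds hN)
  filter_upwards [(eventually_ge_atTop N).prod_mk h2] with q hq
  exact (uu_antitone b q.2 hq.1).trans_lt hq.2

theorem abs_inner_cT (b : HilbertBasis ℕ ℝ H) (n : ℕ) (x y : H) :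
    ⟪cT b n x, y⟫_ℝ ^ 2 ≤ uu b n x * ‖y‖ ^ 2 := by
  have h := abs_real_inner_le_norm (cT b n x) y
  rw [uu_eq, ← mul_pow, ← sq_abs]
  exact pow_le_pow_left₀ (abs_nonneg _) h 2

theorem hasFDerivAt_uu (b : HilbertBasis ℕ ℝ H) (n : ℕ) (x : H) :
    HasFDerivAt (uu b n) ((2 : ℝ) • innerSL ℝ (cT b n x)) x := by
  have h1 : HasFDerivAt (fun x : H => ‖x‖ ^ 2) ((2 : ℝ) • innerSL ℝ x) x := by
    refine (hasStrictFDerivAt_norm_sq x).hasFDerivAt.congr_fderiv ?_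
    ext y
    simp [two_mul]
  have h2 : ∀ i ∈ range n, HasFDerivAt (fun x : H => ⟪b i, x⟫_ℝ ^ 2)
      ((2 * ⟪b i, x⟫_ℝ) • innerSL ℝ (b i)) x := by
    intro i _
    have h3 : HasFDerivAt (fun x : H => ⟪b i, x⟫_ℝ) (innerSL ℝ (b i)) x :=
      (innerSL ℝ (b i)).hasFDerivAt
    have := h3.pow 2
    simpa using this
  have h3 := h1.sub (HasFDerivAt.fun_sum h2)
  refine h3.congr_fderiv ?_
  ext y
  simp only [_root_.sub_apply, _root_.smul_apply, innerSL_apply_apply,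
    _root_.sum_apply, smul_eq_mul, cT_apply, inner_sub_left, inner_cP]
  rw [mul_sub, mul_sum]
  congr 1
  exact Finset.sum_congr rfl fun i _ => by ring

/-- `G_l` -/
noncomputable def gl (b : HilbertBasis ℕ ℝ H) (l : ℕ) (x : H) : ℝ :=
  -(⟪b l, x⟫_ℝ * (uu b l x / (1 + uu b l x)))

noncomputable def dgl (b : HilbertBasis ℕ ℝ H) (l : ℕ) (x : H) : H →L[ℝ] ℝ :=
  -((uu b l x / (1 + uu b l x)) • innerSL ℝ (b l)
    + (⟪b l, x⟫_ℝ * (2 / (1 + uu b l x) ^ 2)) • innerSL ℝ (cT b l x))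

theorem dgl_apply (b : HilbertBasis ℕ ℝ H) (l : ℕ) (x y : H) :
    dgl b l x y = -(uu b l x / (1 + uu b l x) * ⟪b l, y⟫_ℝ
      + ⟪b l, x⟫_ℝ * (2 / (1 + uu b l x) ^ 2) * ⟪cT b l x, y⟫_ℝ) := by
  simp [dgl, -map_neg]

theorem hasFDerivAt_gl (b : HilbertBasis ℕ ℝ H) (l : ℕ) (x : H) :
    HasFDerivAt (gl b l) (dgl b l x) x := by
  have h0 : (1 + uu b l x) ≠ 0 := by have := uu_nonneg b l x; positivity
  have h1 := hasFDerivAt_uu b l x
  have h3 : HasFDerivAt (fun x : H => ⟪b l, x⟫_ℝ) (innerSL ℝ (b l)) x :=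
    (innerSL ℝ (b l)).hasFDerivAt
  have h4 : HasDerivAt (fun t : ℝ => t / (1 + t)) (1 / (1 + uu b l x) ^ 2) (uu b l x) := by
    have h5 := (hasDerivAt_id (uu b l x)).div ((hasDerivAt_id (uu b l x)).const_add 1) h0
    refine h5.congr_deriv ?_
    simp
  have h5 := h3.mul (h4.comp_hasFDerivAt x h1)
  refine (h5.neg).congr_fderiv ?_
  ext y
  simp [dgl_apply]
  ring

theorem continuous_dgl (b : HilbertBasis ℕ ℝ H) (l : ℕ) : Continuous (dgl b l) := by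
  have h1 := uu_continuous b l
  have h2 : ∀ x, (1 + uu b l x) ≠ 0 := fun x => by have := uu_nonneg b l x; positivity
  have h3 : Continuous fun x => cT b l x := (cT b l).continuous
  have h4 : Continuous fun x : H => innerSL ℝ (cT b l x) := (innerSL ℝ).continuous.comp h3
  have h5 : Continuous fun x : H => ⟪b l, x⟫_ℝ := (innerSL ℝ (b l)).continuous
  have h6 : Continuous fun x : H => uu b l x / (1 + uu b l x) :=
    h1.div (continuous_const.add h1) h2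
  have h7 : Continuous fun x : H => 2 / (1 + uu b l x) ^ 2 :=
    continuous_const.div ((continuous_const.add h1).pow 2) fun x => pow_ne_zero 2 (h2 x)
  unfold dgl
  exact ((h6.smul continuous_const).add ((h5.mul h7).smul h4)).neg

theorem sum_sq_le (b : HilbertBasis ℕ ℝ H) (n m : ℕ) (y : H) :
    ∑ i ∈ Ico n m, ⟪b i, y⟫_ℝ ^ 2 ≤ ‖y‖ ^ 2 := by
  rcases le_total n m with h | h
  · refine (sum_sq_Ico b y h).trans ?_
    have := uu_antitone b y (Nat.zero_le n)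
    simpa [uu_zero] using this
  · rw [Finset.Ico_eq_empty_of_le h]; simp

theorem tail_sum_le (b : HilbertBasis ℕ ℝ H) (x : H) (n : ℕ) :
    ∑ l ∈ range n, (⟪b l, x⟫_ℝ / (1 + uu b l x)) ^ 2 ≤ 1 / (1 + uu b n x) - 1 / (1 + uu b 0 x) := by
  induction n with
  | zero => simp
  | succ n ih =>
    rw [sum_range_succ]
    have h1 := uu_nonneg b n x
    have h2 := uu_nonneg b (n + 1) x
    have h3 := uu_succ b n x
    have h4 : (⟪b n, x⟫_ℝ / (1 + uu b n x)) ^ 2 ≤ 1 / (1 + uu b (n + 1) x) - 1 / (1 + uu b n x) := by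
      have h5 : ⟪b n, x⟫_ℝ ^ 2 = uu b n x - uu b (n + 1) x := by linarith
      rw [div_pow, h5, div_sub_div _ _ (by positivity) (by positivity), div_le_div_iff₀ (by positivity)
        (by positivity)]
      have h6 : uu b (n + 1) x ≤ uu b n x := uu_antitone b x (Nat.le_succ n)
      nlinarith [mul_nonneg (mul_nonneg (sub_nonneg.2 h6) (sub_nonneg.2 h6))
        (by positivity : (0 : ℝ) ≤ 1 + uu b n x)]
    linarith

theorem tail_sum_le_one (b : HilbertBasis ℕ ℝ H) (x : H) (n : ℕ) :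
    ∑ l ∈ range n, (⟪b l, x⟫_ℝ / (1 + uu b l x)) ^ 2 ≤ 1 := by
  refine (tail_sum_le b x n).trans ?_
  have h1 := uu_nonneg b n x
  have h2 := uu_nonneg b 0 x
  have h3 : 1 / (1 + uu b n x) ≤ 1 := by
    rw [div_le_one (by positivity)]; linarith
  have h4 : 0 ≤ 1 / (1 + uu b 0 x) := by positivity
  linarith

noncomputable def fG (b : HilbertBasis ℕ ℝ H) (n : ℕ) (x : H) : H :=
  ∑ l ∈ range n, gl b l x • b l

noncomputable def dG (b : HilbertBasis ℕ ℝ H) (n : ℕ) (x : H) : H →L[ℝ] H :=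
  ∑ l ∈ range n, (dgl b l x).smulRight (b l)

theorem dG_apply (b : HilbertBasis ℕ ℝ H) (n : ℕ) (x y : H) :
    dG b n x y = ∑ l ∈ range n, dgl b l x y • b l := by
  simp [dG]

theorem hasFDerivAt_fG (b : HilbertBasis ℕ ℝ H) (n : ℕ) (x : H) :
    HasFDerivAt (fG b n) (dG b n x) x := by
  unfold fG dG
  exact HasFDerivAt.fun_sum fun l _ => (hasFDerivAt_gl b l x).smul_const (b l)

theorem continuous_dG (b : HilbertBasis ℕ ℝ H) (n : ℕ) : Continuous (dG b n) := by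
  unfold dG
  refine continuous_finsetSum _ fun l _ => ?_
  exact ((ContinuousLinearMap.smulRightL ℝ H H).flip (b l)).continuous.comp (continuous_dgl b l)

theorem dgl_sq_le (b : HilbertBasis ℕ ℝ H) {n l : ℕ} (h : n ≤ l) (x y : H) :
    dgl b l x y ^ 2 ≤ 2 * uu b n x ^ 2 * ⟪b l, y⟫_ℝ ^ 2 +
      8 * uu b n x * ‖y‖ ^ 2 * ⟪b l, x⟫_ℝ ^ 2 := by
  have h0 := uu_nonneg b l x
  have h1 : uu b l x ≤ uu b n x := uu_antitone b x h
  have h2 : uu b l x / (1 + uu b l x) ≤ uu b n x := by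
    refine (div_le_self h0 (by linarith)).trans h1
  have h3 : 0 ≤ uu b l x / (1 + uu b l x) := by positivity
  have h4 : 0 < 2 / (1 + uu b l x) ^ 2 := by positivity
  have h5 : 2 / (1 + uu b l x) ^ 2 ≤ 2 := div_le_self (by norm_num) (by nlinarith)
  have h6 := abs_inner_cT b l x y
  rw [dgl_apply]
  set A := uu b l x / (1 + uu b l x)
  set q := ⟪cT b l x, y⟫_ℝ
  set B := 2 / (1 + uu b l x) ^ 2
  have h7 : q ^ 2 ≤ uu b n x * ‖y‖ ^ 2 := h6.trans (by gcongr)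
  have h8 : A ^ 2 ≤ uu b n x ^ 2 := by gcongr
  have h9 : B ^ 2 ≤ 4 := by nlinarith
  have h10 : (B * q) ^ 2 ≤ 4 * (uu b n x * ‖y‖ ^ 2) := by
    rw [mul_pow]; exact mul_le_mul h9 h7 (sq_nonneg _) (by norm_num)
  have h11 : (A * ⟪b l, y⟫_ℝ) ^ 2 ≤ uu b n x ^ 2 * ⟪b l, y⟫_ℝ ^ 2 := by
    rw [mul_pow]; gcongr
  have h12 : (⟪b l, x⟫_ℝ * B * q) ^ 2 ≤ ⟪b l, x⟫_ℝ ^ 2 * (4 * (uu b n x * ‖y‖ ^ 2)) := by
    rw [mul_assoc, mul_pow]; gcongr
  have h13 : (-(A * ⟪b l, y⟫_ℝ + ⟪b l, x⟫_ℝ * B * q)) ^ 2 ≤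
      2 * (A * ⟪b l, y⟫_ℝ) ^ 2 + 2 * (⟪b l, x⟫_ℝ * B * q) ^ 2 := by
    nlinarith [sq_nonneg (A * ⟪b l, y⟫_ℝ - ⟪b l, x⟫_ℝ * B * q)]
  nlinarith

theorem norm_dG_sub (b : HilbertBasis ℕ ℝ H) (x : H) {n m : ℕ} (h : n ≤ m) :
    ‖dG b m x - dG b n x‖ ≤ 4 * uu b n x := by
  have h0 := uu_nonneg b n x
  refine ContinuousLinearMap.opNorm_le_bound _ (by positivity) fun y => ?_
  have h1 : (dG b m x - dG b n x) y = ∑ l ∈ Ico n m, dgl b l x y • b l := by
    rw [Finset.sum_Ico_eq_sub _ h, _root_.sub_apply, dG_apply, dG_apply]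
  rw [h1]
  refine le_of_sq_le_sq ?_ (by positivity)
  rw [norm_sum_sq]
  have h2 : ∑ l ∈ Ico n m, dgl b l x y ^ 2 ≤ ∑ l ∈ Ico n m, (2 * uu b n x ^ 2 * ⟪b l, y⟫_ℝ ^ 2 +
      8 * uu b n x * ‖y‖ ^ 2 * ⟪b l, x⟫_ℝ ^ 2) :=
    Finset.sum_le_sum fun l hl => dgl_sq_le b (Finset.mem_Ico.1 hl).1 x y
  refine h2.trans ?_
  rw [sum_add_distrib, ← mul_sum, ← mul_sum]
  have h3 := sum_sq_le b n m y
  have h4 := sum_sq_Ico b x h
  have h5 : 2 * uu b n x ^ 2 * ∑ i ∈ Ico n m, ⟪b i, y⟫_ℝ ^ 2 ≤ 2 * uu b n x ^ 2 * ‖y‖ ^ 2 := by gcongr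
  have h6 : 8 * uu b n x * ‖y‖ ^ 2 * ∑ i ∈ Ico n m, ⟪b i, x⟫_ℝ ^ 2 ≤
      8 * uu b n x * ‖y‖ ^ 2 * uu b n x := by gcongr
  nlinarith [sq_nonneg (uu b n x * ‖y‖)]

theorem norm_fG_sub (b : HilbertBasis ℕ ℝ H) (x : H) {n m : ℕ} (h : n ≤ m) :
    ‖fG b m x - fG b n x‖ ≤ ‖cT b n x‖ := by
  have h1 : fG b m x - fG b n x = ∑ l ∈ Ico n m, gl b l x • b l := by
    rw [Finset.sum_Ico_eq_sub _ h]; rfl
  rw [h1]
  refine le_of_sq_le_sq ?_ (norm_nonneg _)
  rw [norm_sum_sq, ← uu_eq]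
  refine le_trans (Finset.sum_le_sum fun l _ => ?_) (sum_sq_Ico b x h)
  have h0 := uu_nonneg b l x
  have h2 : uu b l x / (1 + uu b l x) ≤ 1 := by rw [div_le_one (by positivity)]; linarith
  have h3 : 0 ≤ uu b l x / (1 + uu b l x) := by positivity
  rw [gl, neg_sq, mul_pow]
  calc ⟪b l, x⟫_ℝ ^ 2 * (uu b l x / (1 + uu b l x)) ^ 2 ≤ ⟪b l, x⟫_ℝ ^ 2 * 1 ^ 2 := by gcongr
    _ = _ := by ring

theorem cT_tendsto (b : HilbertBasis ℕ ℝ H) (x : H) :
    Tendsto (fun n => ‖cT b n x‖) atTop (𝓝 0) := by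
  have h := (uu_tendsto b x).sqrt
  simp only [Real.sqrt_zero] at h
  refine h.congr fun n => ?_
  rw [uu_eq, Real.sqrt_sq (norm_nonneg _)]

theorem cP_tendsto (b : HilbertBasis ℕ ℝ H) (x : H) :
    Tendsto (fun n => cP b n x) atTop (𝓝 x) := by
  rw [tendsto_iff_norm_sub_tendsto_zero]
  refine (cT_tendsto b x).congr fun n => ?_
  rw [cT_apply, norm_sub_rev]

theorem isCompactOperator_smulRight (φ : H →L[ℝ] ℝ) (v : H) :
    IsCompactOperator (φ.smulRight v) := by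
  have h1 : IsCompactOperator φ := isCompactOperator_of_locallyCompactSpace_dom φ
  exact h1.clm_comp ((ContinuousLinearMap.id ℝ ℝ).smulRight v)

theorem isCompactOperator_sum {ι : Type*} (s : Finset ι) (f : ι → H →L[ℝ] H)
    (h : ∀ i ∈ s, IsCompactOperator (f i)) : IsCompactOperator (∑ i ∈ s, f i : H →L[ℝ] H) := by
  classical
  induction s using Finset.induction_on with
  | empty => simpa using isCompactOperator_zero
  | insert i s hi ih =>
    rw [Finset.sum_insert hi]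
    exact (h i (by simp)).add (ih fun j hj => h j (by simp [hj]))

theorem tail_aux (b : HilbertBasis ℕ ℝ H) : ∃ (G : H → H) (D : H → H →L[ℝ] H),
    (∀ x, HasFDerivAt G (D x) x) ∧ Continuous D ∧ (∀ x, IsCompactOperator (D x)) ∧
    (∀ x, ‖x + G x‖ ≤ 1) ∧ ∀ x, ‖ContinuousLinearMap.id ℝ H + D x‖ ≤ 2 := by
  have h1 : ∀ x, ∃ L, Tendsto (fun n => fG b n x) atTop (𝓝 L) ∧ ∀ n, ‖L - fG b n x‖ ≤ ‖cT b n x‖ :=
    fun x => exists_lim _ _ (cT_tendsto b x) fun n m h => norm_fG_sub b x h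
  have h2 : ∀ x, ∃ L, Tendsto (fun n => dG b n x) atTop (𝓝 L) ∧ ∀ n, ‖L - dG b n x‖ ≤ 4 * uu b n x :=
    fun x => exists_lim _ _ (by simpa using (uu_tendsto b x).const_mul 4)
      fun n m h => norm_dG_sub b x h
  choose G hG hG' using h1
  choose D hD hD' using h2
  refine ⟨G, D, fun x => ?_, ?_, fun x => ?_, fun x => ?_, fun x => ?_⟩
  · refine hasFDerivAt_of_tendstoUniformlyOnFilter (l := atTop) (f := fG b) (f' := dG b) ?_ ?_ ?_
    · rw [Metric.tendstoUniformlyOnFilter_iff]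
      intro ε hε
      filter_upwards [uu_small b x (ε := ε / 4) (by positivity)] with q hq
      rw [dist_eq_norm]
      have := hD' q.2 q.1
      linarith
    · exact Eventually.of_forall fun q => hasFDerivAt_fG b q.1 q.2
    · exact Eventually.of_forall fun y => hG y
  · refine continuous_iff_continuousAt.2 fun x => ?_
    refine continuousAt_of_locally_uniform_approx_of_continuousAt fun u hu => ?_
    obtain ⟨ε, hε, hεu⟩ := Metric.mem_uniformity_dist.1 hu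
    obtain ⟨N, hN⟩ := ((uu_tendsto b x).eventually
      (gt_mem_nhds (show (0 : ℝ) < ε / 4 by positivity))).exists
    have h3 : ∀ᶠ y in 𝓝 x, uu b N y < ε / 4 :=
      (uu_continuous b N).continuousAt.eventually (gt_mem_nhds hN)
    refine ⟨_, h3, dG b N, (continuous_dG b N).continuousAt, fun y hy => hεu ?_⟩
    rw [dist_eq_norm]
    have := hD' y N
    have h4 : uu b N y < ε / 4 := hy
    linarith
  · refine isCompactOperator_of_tendsto (hD x) (Eventually.of_forall fun n => ?_)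
    exact isCompactOperator_sum _ _ fun l _ => isCompactOperator_smulRight _ _
  · refine le_of_tendsto ((cP_tendsto b x).add (hG x)).norm (Eventually.of_forall fun n => ?_)
    refine le_of_sq_le_sq ?_ (by norm_num)
    have h3 : cP b n x + fG b n x = ∑ l ∈ range n, (⟪b l, x⟫_ℝ / (1 + uu b l x)) • b l := by
      rw [cP_apply, fG, ← sum_add_distrib]
      refine Finset.sum_congr rfl fun l _ => ?_
      rw [← add_smul]
      congr 1
      have h0 : (1 + uu b l x) ≠ 0 := by have := uu_nonneg b l x; positivity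
      rw [gl]; field_simp; ring
    rw [h3, norm_sum_sq]
    simpa using tail_sum_le_one b x n
  · refine ContinuousLinearMap.opNorm_le_bound _ (by norm_num) fun y => ?_
    have h3 : Tendsto (fun n => cP b n y + dG b n x y) atTop
        (𝓝 ((ContinuousLinearMap.id ℝ H + D x) y)) := by
      refine (cP_tendsto b y).add ?_
      exact ((ContinuousLinearMap.apply ℝ H y).continuous.tendsto _).comp (hD x)
    refine le_of_tendsto h3.norm (Eventually.of_forall fun n => ?_)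
    have h4 : cP b n y + dG b n x y = (∑ l ∈ range n, (⟪b l, y⟫_ℝ / (1 + uu b l x)) • b l)
        - ∑ l ∈ range n, (⟪b l, x⟫_ℝ * (2 / (1 + uu b l x) ^ 2) * ⟪cT b l x, y⟫_ℝ) • b l := by
      rw [cP_apply, dG_apply, ← sum_add_distrib, ← sum_sub_distrib]
      refine Finset.sum_congr rfl fun l _ => ?_
      rw [← add_smul, ← sub_smul]
      congr 1
      have h0 : (1 + uu b l x) ≠ 0 := by have := uu_nonneg b l x; positivity
      rw [dgl_apply]; field_simp; ring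
    rw [h4]
    have h5 : ‖∑ l ∈ range n, (⟪b l, y⟫_ℝ / (1 + uu b l x)) • b l‖ ≤ ‖y‖ := by
      refine le_of_sq_le_sq ?_ (norm_nonneg _)
      rw [norm_sum_sq]
      refine le_trans (Finset.sum_le_sum fun l _ => ?_)
        (by simpa using sum_sq_le b 0 n y)
      have h0 := uu_nonneg b l x
      rw [div_pow]
      exact div_le_self (sq_nonneg _) (by nlinarith)
    have h6 : ‖∑ l ∈ range n, (⟪b l, x⟫_ℝ * (2 / (1 + uu b l x) ^ 2) * ⟪cT b l x, y⟫_ℝ) • b l‖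
        ≤ ‖y‖ := by
      refine le_of_sq_le_sq ?_ (norm_nonneg _)
      rw [norm_sum_sq]
      have h7 : ∀ l ∈ range n, (⟪b l, x⟫_ℝ * (2 / (1 + uu b l x) ^ 2) * ⟪cT b l x, y⟫_ℝ) ^ 2 ≤
          ‖y‖ ^ 2 * (⟪b l, x⟫_ℝ / (1 + uu b l x)) ^ 2 := by
        intro l _
        have h0 := uu_nonneg b l x
        have h8 := abs_inner_cT b l x y
        have h9 : (2 / (1 + uu b l x) ^ 2) ^ 2 * (uu b l x) ≤ (1 / (1 + uu b l x)) ^ 2 := by
          rw [div_pow, div_pow, ← pow_mul, div_mul_eq_mul_div, div_le_div_iff₀ (by positivity)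
            (by positivity)]
          have e0 := mul_nonneg (sq_nonneg (1 - uu b l x)) (sq_nonneg (1 + uu b l x))
          have e1 : (1 : ℝ) ^ 2 * (1 + uu b l x) ^ (2 * 2) - 2 ^ 2 * uu b l x * (1 + uu b l x) ^ 2 =
            (1 - uu b l x) ^ 2 * (1 + uu b l x) ^ 2 := by ring
          linarith
        calc (⟪b l, x⟫_ℝ * (2 / (1 + uu b l x) ^ 2) * ⟪cT b l x, y⟫_ℝ) ^ 2
            = ⟪b l, x⟫_ℝ ^ 2 * (2 / (1 + uu b l x) ^ 2) ^ 2 * ⟪cT b l x, y⟫_ℝ ^ 2 := by ring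
          _ ≤ ⟪b l, x⟫_ℝ ^ 2 * (2 / (1 + uu b l x) ^ 2) ^ 2 * (uu b l x * ‖y‖ ^ 2) := by gcongr
          _ = ⟪b l, x⟫_ℝ ^ 2 * ‖y‖ ^ 2 * ((2 / (1 + uu b l x) ^ 2) ^ 2 * uu b l x) := by ring
          _ ≤ ⟪b l, x⟫_ℝ ^ 2 * ‖y‖ ^ 2 * (1 / (1 + uu b l x)) ^ 2 := by gcongr
          _ = ‖y‖ ^ 2 * (⟪b l, x⟫_ℝ / (1 + uu b l x)) ^ 2 := by ring
      refine (Finset.sum_le_sum h7).trans ?_
      rw [← mul_sum]
      have h8 := tail_sum_le_one b x n
      nlinarith [sq_nonneg ‖y‖]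
    refine (norm_sub_le _ _).trans ?_
    linarith

/-- THE TAIL MAP. -/
theorem tail_map (b : HilbertBasis ℕ ℝ H) : ∃ (g : H → H) (Dg : H → H →L[ℝ] H),
    (∀ x, HasFDerivAt g (Dg x) x) ∧ Continuous Dg ∧ (∀ x, ‖g x‖ ≤ 1) ∧ (∀ x, ‖Dg x‖ ≤ 2) ∧
    ∀ x, IsCompactOperator (Dg x - ContinuousLinearMap.id ℝ H) := by
  obtain ⟨G, D, h1, h2, h3, h4, h5⟩ := tail_aux b
  refine ⟨fun x => x + G x, fun x => ContinuousLinearMap.id ℝ H + D x, fun x => ?_,
    continuous_const.add h2, h4, h5, fun x => ?_⟩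
  · exact (hasFDerivAt_id x).add (h1 x)
  · simpa using h3 x

theorem isCompactOperator_cP (b : HilbertBasis ℕ ℝ H) (n : ℕ) : IsCompactOperator (cP b n) :=
  isCompactOperator_sum _ _ fun _ _ => isCompactOperator_smulRight _ _

theorem inner_cT_b (b : HilbertBasis ℕ ℝ H) {n l : ℕ} (h : l < n) (x : H) :
    ⟪b l, cT b n x⟫_ℝ = 0 := by
  rw [cT_apply, inner_sub_right, cP_apply, inner_b_sum, if_pos (Finset.mem_range.2 h), sub_self]

theorem cT_b (b : HilbertBasis ℕ ℝ H) {n l : ℕ} (h : l < n) : cT b n (b l) = 0 := by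
  rw [cT_apply, cP_apply]
  simp_rw [orthonormal_iff_ite.1 b.orthonormal]
  simp [h]

theorem cT_norm_le (b : HilbertBasis ℕ ℝ H) (n : ℕ) (x : H) : ‖cT b n x‖ ≤ ‖x‖ := by
  refine le_of_sq_le_sq ?_ (norm_nonneg _)
  rw [← uu_eq, ← uu_zero b]
  exact uu_antitone b x (Nat.zero_le n)

theorem cT_cT (b : HilbertBasis ℕ ℝ H) (n : ℕ) : (cT b n).comp (cT b n) = cT b n := by
  ext x
  have h : cP b n (cT b n x) = 0 := by
    rw [cP_apply]
    exact Finset.sum_eq_zero fun l hl => by rw [inner_cT_b b (Finset.mem_range.1 hl), zero_smul]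
  rw [ContinuousLinearMap.comp_apply, cT_apply b n (cT b n x), h, sub_zero]

/-- THE TAIL MAP at scale `ρ` on the coordinates `≥ n`. -/
theorem tail_map_rho (b : HilbertBasis ℕ ℝ H) (n : ℕ) {ρ : ℝ} (hρ : 0 < ρ) :
    ∃ (g : H → H) (Dg : H → H →L[ℝ] H),
    (∀ x, HasFDerivAt g (Dg x) x) ∧ Continuous Dg ∧ (∀ x, ‖g x‖ ≤ ρ) ∧ (∀ x, ‖Dg x‖ ≤ 2) ∧
    (∀ x, ∀ l < n, Dg x (b l) = 0) ∧ (∀ x, ∀ l < n, ∀ u, ⟪b l, Dg x u⟫_ℝ = 0) ∧
    ∀ x, IsCompactOperator (Dg x - ContinuousLinearMap.id ℝ H) := by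
  obtain ⟨g, D, h1, h2, h3, h4, h5⟩ := tail_map b
  refine ⟨fun x => ρ • cT b n (g (ρ⁻¹ • cT b n x)),
    fun x => (cT b n).comp ((D (ρ⁻¹ • cT b n x)).comp (cT b n)), fun x => ?_, ?_, fun x => ?_,
    fun x => ?_, fun x l hl => ?_, fun x l hl u => ?_, fun x => ?_⟩
  · have h6 : HasFDerivAt (fun x => ρ⁻¹ • cT b n x) (ρ⁻¹ • cT b n) x :=
      (cT b n).hasFDerivAt.const_smul ρ⁻¹
    have h7 := ((cT b n).hasFDerivAt.comp x ((h1 (ρ⁻¹ • cT b n x)).comp x h6)).const_smul ρ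
    refine h7.congr_fderiv ?_
    ext u
    simp [smul_smul, hρ.ne']
  · have h6 : Continuous fun x => ρ⁻¹ • cT b n x := (cT b n).continuous.const_smul ρ⁻¹
    exact continuous_const.clm_comp ((h2.comp h6).clm_comp continuous_const)
  · rw [norm_smul, Real.norm_of_nonneg hρ.le]
    have := (cT_norm_le b n (g (ρ⁻¹ • cT b n x))).trans (h3 _)
    nlinarith
  · refine ContinuousLinearMap.opNorm_le_bound _ (by norm_num) fun u => ?_
    rw [ContinuousLinearMap.comp_apply, ContinuousLinearMap.comp_apply]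
    refine (cT_norm_le b n _).trans (((D _).le_opNorm _).trans ?_)
    exact mul_le_mul (h4 _) (cT_norm_le b n u) (norm_nonneg _) (by norm_num)
  · rw [ContinuousLinearMap.comp_apply, ContinuousLinearMap.comp_apply, cT_b b hl, map_zero, map_zero]
  · rw [ContinuousLinearMap.comp_apply, inner_cT_b b hl]
  · have h6 : (cT b n).comp ((D (ρ⁻¹ • cT b n x)).comp (cT b n)) - ContinuousLinearMap.id ℝ H =
        (cT b n).comp ((D (ρ⁻¹ • cT b n x) - ContinuousLinearMap.id ℝ H).comp (cT b n)) - cP b n := by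
      have h7 := cT_cT b n
      have h8 : ContinuousLinearMap.id ℝ H = cT b n + cP b n := by
        ext u; simp [cT_apply]
      rw [ContinuousLinearMap.sub_comp, ContinuousLinearMap.comp_sub, ContinuousLinearMap.id_comp, h7]
      nth_rewrite 1 [h8]
      abel
    rw [h6]
    exact (((h5 _).comp_clm (cT b n)).clm_comp (cT b n)).sub (isCompactOperator_cP b n)

end MP49c203
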